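import Pool.Agent.H756.SB.Stm2
import Pool.Agent.U959.OC.Poi

/-!
Project SB, package POI (helper411): the Poincare inequality with the weight of the logistic law on
signed order polytopes, from the lattice inequality. Adapted from `Pool.Agent.U959.OC.Poi` and
`Pool.Agent.U959.OC.Up` of helper959.
-/

set_option autoImplicit false

namespace Pool.Agent.U411.SB

open MeasureTheory Set Filter Topology
open Pool.Agent.R972.OP (WC lp pd)
open Pool.Agent.R364.OP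
open Pool.Agent.U959.OC
open Pool.Agent.H756.SB

variable {n : ℕ}

theorem sr_symm (M t : ℝ) : sr M (M - t) = sr M t := by
  unfold sr
  congr 1
  ring

theorem sc_cl (N : ℕ) : SC N (WL (2 * N)) (cl (2 * N)) := by
  refine ⟨wcl (2 * N), ?_, ?_⟩
  · intro k hk
    unfold WL
    have h1 : ((2 * N - 1 - k : ℕ) : ℝ) = ((2 * N : ℕ) : ℝ) - ((k : ℝ) + 1) := by
      have h : 2 * N - 1 - k + (k + 1) = 2 * N := by omega
      have h2 : ((2 * N - 1 - k : ℕ) : ℝ) + ((k : ℝ) + 1) = ((2 * N : ℕ) : ℝ) := by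
        exact_mod_cast h
      linarith
    have h3 : ((2 * N : ℕ) : ℝ) - ((k : ℝ) + 1) + 1 = ((2 * N : ℕ) : ℝ) - (k : ℝ) := by ring
    rw [h1, sr_symm, h3, sr_symm]
    ring
  · intro k hk
    unfold cl
    have h1 : ((2 * N - 2 - k : ℕ) : ℝ) = ((2 * N : ℕ) : ℝ) - ((k : ℝ) + 2) := by
      have h : 2 * N - 2 - k + (k + 2) = 2 * N := by omega
      have h2 : ((2 * N - 2 - k : ℕ) : ℝ) + ((k : ℝ) + 2) = ((2 * N : ℕ) : ℝ) := by
        exact_mod_cast h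
      linarith
    have h3 : ((2 * N : ℕ) : ℝ) - ((k : ℝ) + 2) + 1 = ((2 * N : ℕ) : ℝ) - ((k : ℝ) + 1) := by ring
    have h4 : ((2 * N : ℕ) : ℝ) - ((k : ℝ) + 2) + 2 = ((2 * N : ℕ) : ℝ) - (k : ℝ) := by ring
    rw [h1, h3, h4, sr_symm, sr_symm, sr_symm]
    congr 1
    ring

theorem rf_lt {N k x : ℕ} (hk : k < N) (hx : x < 2 * N) : rf N k (k + 1) x < 2 * N := by
  unfold rf
  split_ifs <;> omega

theorem rf_near {N k x : ℕ} (hk : k < N) : rf N k (k + 1) x = x ∨ rf N k (k + 1) x = x + 1 ∨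
    rf N k (k + 1) x + 1 = x := by
  unfold rf
  split_ifs <;> omega

theorem upl_s {f : (Fin n → ℝ) → ℝ} (hf : ContDiff ℝ 1 f) {B : ℝ}
    (hB : ∀ x ∈ cube n, ‖fderiv ℝ f x‖ ≤ B) {N : ℕ} (hN : 0 < N)
    {g : Fin n → ℕ} (hg : ∀ a, g a < 2 * N) (k : ℕ) (hk : k < N) :
    cl (2 * N) k * (f (lp (2 * N) (mvs N k (k + 1) g)) - f (lp (2 * N) g)) ^ 2 ≤ B ^ 2 := by
  have hN2 : 0 < 2 * N := by omega
  have hN' : (0 : ℝ) < ((2 * N : ℕ) : ℝ) := by exact_mod_cast hN2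
  have hx := lp_mem hN2 hg
  have hB0 : 0 ≤ B := le_trans (norm_nonneg _) (hB _ hx)
  have hg' : ∀ c, mvs N k (k + 1) g c < 2 * N := fun c => rf_lt hk (hg c)
  have hy := lp_mem hN2 hg'
  have hnorm : ‖lp (2 * N) (mvs N k (k + 1) g) - lp (2 * N) g‖ ≤ 1 / ((2 * N : ℕ) : ℝ) := by
    rw [pi_norm_le_iff_of_nonneg (by positivity)]
    intro c
    show ‖((mvs N k (k + 1) g c : ℕ) : ℝ) / ((2 * N : ℕ) : ℝ) - (g c : ℝ) / ((2 * N : ℕ) : ℝ)‖ ≤
      1 / ((2 * N : ℕ) : ℝ)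
    rw [← sub_div, norm_div, Real.norm_eq_abs, Real.norm_eq_abs, abs_of_pos hN']
    apply div_le_div_of_nonneg_right _ hN'.le
    have h1 : mvs N k (k + 1) g c = g c ∨ mvs N k (k + 1) g c = g c + 1 ∨
        mvs N k (k + 1) g c + 1 = g c := rf_near hk
    rcases h1 with h | h | h
    · rw [h]; simp
    · rw [h]; push_cast; simp
    · rw [← h]; push_cast; simp
  have hdiff : |f (lp (2 * N) (mvs N k (k + 1) g)) - f (lp (2 * N) g)| ≤
      B * (1 / ((2 * N : ℕ) : ℝ)) := by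
    have := Convex.norm_image_sub_le_of_norm_fderiv_le (𝕜 := ℝ) (f := f)
      (s := cube n) (C := B) (x := lp (2 * N) g) (y := lp (2 * N) (mvs N k (k + 1) g))
      (fun z _ => (hf.differentiable one_ne_zero) z) hB (convex_Icc 0 1) hx hy
    rw [Real.norm_eq_abs] at this
    exact this.trans (mul_le_mul_of_nonneg_left hnorm hB0)
  have hsq : (f (lp (2 * N) (mvs N k (k + 1) g)) - f (lp (2 * N) g)) ^ 2 ≤
      (B * (1 / ((2 * N : ℕ) : ℝ))) ^ 2 := by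
    rw [← sq_abs (f (lp (2 * N) (mvs N k (k + 1) g)) - f (lp (2 * N) g))]
    exact pow_le_pow_left₀ (abs_nonneg _) hdiff 2
  have hlt : k + 1 < 2 * N := by omega
  have hc1 : cl (2 * N) k ≤ ((2 * N : ℕ) : ℝ) ^ 2 := by
    refine (cl_le hlt).trans ?_
    have h1 : (0 : ℝ) ≤ ((k : ℝ) + 1) := by positivity
    have h2 : ((k : ℝ) + 1) ≤ ((2 * N : ℕ) : ℝ) := by exact_mod_cast hlt.le
    have h3 : ((k : ℝ) + 1) * (((2 * N : ℕ) : ℝ) - ((k : ℝ) + 1)) ≤ ((2 * N : ℕ) : ℝ) ^ 2 / 4 := by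
      nlinarith [sq_nonneg ((k : ℝ) + 1 - ((2 * N : ℕ) : ℝ) / 2)]
    have h4 : (0 : ℝ) ≤ ((k : ℝ) + 1) * (((2 * N : ℕ) : ℝ) - ((k : ℝ) + 1)) :=
      mul_nonneg h1 (by linarith)
    rw [div_le_iff₀ (by positivity)]
    have h5 : (((k : ℝ) + 1) * (((2 * N : ℕ) : ℝ) - ((k : ℝ) + 1))) ^ 2 ≤
        (((2 * N : ℕ) : ℝ) ^ 2 / 4) ^ 2 :=
      pow_le_pow_left₀ h4 h3 2
    have h6 : (0 : ℝ) ≤ ((2 * N : ℕ) : ℝ) ^ 4 := by positivity
    nlinarith
  calc cl (2 * N) k * (f (lp (2 * N) (mvs N k (k + 1) g)) - f (lp (2 * N) g)) ^ 2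
      ≤ ((2 * N : ℕ) : ℝ) ^ 2 * (f (lp (2 * N) (mvs N k (k + 1) g)) - f (lp (2 * N) g)) ^ 2 :=
        mul_le_mul_of_nonneg_right hc1 (sq_nonneg _)
    _ ≤ ((2 * N : ℕ) : ℝ) ^ 2 * (B * (1 / ((2 * N : ℕ) : ℝ))) ^ 2 :=
        mul_le_mul_of_nonneg_left hsq (by positivity)
    _ = B ^ 2 := by field_simp

theorem mem_cfs {N : ℕ} {S : Fin n × Bool → Fin n × Bool → Prop} {g : Fin n → ℕ}
    (hg : g ∈ cfs N S) : (∀ a, g a < 2 * N) ∧ Function.Injective g := by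
  classical
  unfold cfs at hg
  rw [Finset.mem_filter, Fintype.mem_piFinset] at hg
  refine ⟨fun a => Finset.mem_range.1 (hg.1 a), fun a b hab => ?_⟩
  by_contra h
  exact (hg.2.1 a b h).1 hab

/-- **Package POI**. -/
theorem t_POI : S_LAT → S_RS → S_ADJ → S_UPC → S_POI := by
  classical
  intro h1 h2 h3 h4 n S hS f hf
  obtain ⟨err, C', herr, -, hbd⟩ := upl n f hf
  have hK : IsCompact (cube n) := isCompact_Icc
  have hcont : Continuous (fderiv ℝ f) := hf.continuous_fderiv one_ne_zero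
  obtain ⟨B, hB⟩ := hK.exists_bound_of_continuousOn hcont.continuousOn
  obtain ⟨C, hC⟩ : ∃ C, C = B ^ 2 := ⟨_, rfl⟩
  have hcf : Continuous f := hf.continuous
  have hcpd : ∀ a, Continuous (pd f a) := by
    intro a
    unfold pd
    exact (hf.continuous_fderiv (by norm_num)).clm_apply continuous_const
  have hcG : Continuous (Glo f) := by
    unfold Glo
    refine continuous_finsetSum _ fun a _ => ?_
    exact (continuous_const.mul (((continuous_apply a).mul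
      (continuous_const.sub (continuous_apply a))).pow 2)).mul ((hcpd a).pow 2)
  have herr2 : Tendsto (fun N : ℕ => err (2 * N)) atTop (𝓝 0) :=
    herr.comp (tendsto_id.const_mul_atTop' (by norm_num : 0 < 2))
  have t1 := h2 n S hS (fun _ => (1 : ℝ)) continuous_const
  have tf := h2 n S hS f hcf
  have tf2 := h2 n S hS (fun x => f x ^ 2) (hcf.pow 2)
  have tG := h2 n S hS (Glo f) hcG
  have tA := h3 n S
  have hvol : (∫ _x in OPs S, (1 : ℝ)) = (volume (OPs S)).toReal := by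
    rw [setIntegral_const]
    simp [Measure.real]
  rw [hvol] at t1
  -- the limits of both sides
  have tL := (t1.mul tf2).sub (tf.pow 2)
  have tR := t1.mul (((tG.add (herr2.mul t1)).add (tA.const_mul C)).const_mul (1 / 2 : ℝ))
  have hlim : (volume (OPs S)).toReal * (1 / 2 * ((∫ x in OPs S, Glo f x) +
      0 * (volume (OPs S)).toReal + C * 0)) =
      (volume (OPs S)).toReal * (1 / 2 * ∫ x in OPs S, Glo f x) := by ring
  rw [hlim] at tR
  refine le_of_tendsto_of_tendsto tL tR ?_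
  filter_upwards [eventually_gt_atTop 0] with N hN
  have hN2 : 0 < 2 * N := by omega
  have hN0 : (0 : ℝ) < ((2 * N : ℕ) : ℝ) := by exact_mod_cast hN2
  obtain ⟨M, hM⟩ : ∃ M : ℝ, M = ((2 * N : ℕ) : ℝ) := ⟨_, rfl⟩
  rw [← hM] at hN0
  have hNn : (0 : ℝ) < M ^ n := by positivity
  have hlat := h1 n N S (WL (2 * N)) (cl (2 * N)) (sc_cl N) (fun g => f (lp (2 * N) g))
  have hQ : ∀ g ∈ cfs N S, QQs N S (cl (2 * N)) (fun g => f (lp (2 * N) g)) g ≤
      Glo f (lp (2 * N) g) + err (2 * N) + C * (adjs N g : ℝ) := by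
    intro g hg
    obtain ⟨hlt, hinj⟩ := mem_cfs hg
    obtain ⟨hb1, -⟩ := hbd (2 * N) g hN2 hlt hinj
    refine (h4 n N S (cl (2 * N)) (fun g => f (lp (2 * N) g)) C (fun k hk => cl_nonneg hk)
      (sc_cl N).cs g hg ?_).trans ?_
    · intro k hk
      rw [hC]
      exact upl_s hf hB hN hlt k hk
    · linarith
  have hsum : ∑ g ∈ cfs N S, QQs N S (cl (2 * N)) (fun g => f (lp (2 * N) g)) g ≤
      (∑ g ∈ cfs N S, Glo f (lp (2 * N) g)) + (cfs N S).card * err (2 * N) +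
        C * ∑ g ∈ cfs N S, (adjs N g : ℝ) := by
    refine (Finset.sum_le_sum hQ).trans (le_of_eq ?_)
    rw [Finset.sum_add_distrib, Finset.sum_add_distrib, Finset.sum_const, nsmul_eq_mul,
      Finset.mul_sum]
  have hfin : ((cfs N S).card : ℝ) * ∑ g ∈ cfs N S, f (lp (2 * N) g) ^ 2 -
      (∑ g ∈ cfs N S, f (lp (2 * N) g)) ^ 2 ≤
      (cfs N S).card * (1 / 2 * ((∑ g ∈ cfs N S, Glo f (lp (2 * N) g)) +
        (cfs N S).card * err (2 * N) + C * ∑ g ∈ cfs N S, (adjs N g : ℝ))) := by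
    refine hlat.trans ?_
    apply mul_le_mul_of_nonneg_left _ (Nat.cast_nonneg _)
    exact mul_le_mul_of_nonneg_left hsum (by norm_num)
  have hcard1 : (∑ _g ∈ cfs N S, (1 : ℝ)) = (cfs N S).card := by simp
  show (∑ _g ∈ cfs N S, (1 : ℝ)) / ((2 * N : ℕ) : ℝ) ^ n *
      ((∑ g ∈ cfs N S, f (lp (2 * N) g) ^ 2) / ((2 * N : ℕ) : ℝ) ^ n) -
      ((∑ g ∈ cfs N S, f (lp (2 * N) g)) / ((2 * N : ℕ) : ℝ) ^ n) ^ 2 ≤
    (∑ _g ∈ cfs N S, (1 : ℝ)) / ((2 * N : ℕ) : ℝ) ^ n *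
      (1 / 2 * ((∑ g ∈ cfs N S, Glo f (lp (2 * N) g)) / ((2 * N : ℕ) : ℝ) ^ n +
      err (2 * N) * ((∑ _g ∈ cfs N S, (1 : ℝ)) / ((2 * N : ℕ) : ℝ) ^ n) +
        C * ((∑ g ∈ cfs N S, (adjs N g : ℝ)) / ((2 * N : ℕ) : ℝ) ^ n)))
  rw [hcard1, ← hM]
  have hl : ((cfs N S).card : ℝ) / M ^ n * ((∑ g ∈ cfs N S, f (lp (2 * N) g) ^ 2) / M ^ n) -
      ((∑ g ∈ cfs N S, f (lp (2 * N) g)) / M ^ n) ^ 2 =
      (((cfs N S).card : ℝ) * ∑ g ∈ cfs N S, f (lp (2 * N) g) ^ 2 -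
      (∑ g ∈ cfs N S, f (lp (2 * N) g)) ^ 2) / (M ^ n) ^ 2 := by
    field_simp
  have hr : ((cfs N S).card : ℝ) / M ^ n *
      (1 / 2 * ((∑ g ∈ cfs N S, Glo f (lp (2 * N) g)) / M ^ n +
      err (2 * N) * (((cfs N S).card : ℝ) / M ^ n) +
        C * ((∑ g ∈ cfs N S, (adjs N g : ℝ)) / M ^ n))) =
      ((cfs N S).card * (1 / 2 * ((∑ g ∈ cfs N S, Glo f (lp (2 * N) g)) +
        (cfs N S).card * err (2 * N) + C * ∑ g ∈ cfs N S, (adjs N g : ℝ)))) / (M ^ n) ^ 2 := by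
    field_simp
  rw [hl, hr]
  exact div_le_div_of_nonneg_right hfin (by positivity)

end Pool.Agent.U411.SB
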